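import Pool.Agent.J6H10.GI.Base

/-! # Project GI, module GI-AV: dyadic means of a slowly oscillating family can be inverted -/

set_option autoImplicit false

open MeasureTheory Set Filter Topology

namespace Pool.Agent.J6H64.GI

open Pool.Agent.J6H10.GI

section
variable {F : ℝ → ℝ → ℝ} {K : ℝ}

theorem diff_le (h : Slow F K) (hK : 0 ≤ K) {δ r r' : ℝ} (hδ : 0 < δ) (hδ1 : δ ≤ 1) (h2 : 2 ≤ r')
    (hr : r' ≤ r) : |F δ r - F δ r'| ≤ 2 * Real.sqrt K * K * Real.sqrt (r / r' - 1) := by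
  have s1 : Real.sqrt (F δ r) ≤ Real.sqrt K := Real.sqrt_le_sqrt (h.le δ r hδ hδ1 (h2.trans hr))
  have s2 : Real.sqrt (F δ r') ≤ Real.sqrt K := Real.sqrt_le_sqrt (h.le δ r' hδ hδ1 h2)
  have o := h.osc δ r r' hδ hδ1 h2 hr
  have e3 : F δ r - F δ r' =
      (Real.sqrt (F δ r) + Real.sqrt (F δ r')) * (Real.sqrt (F δ r) - Real.sqrt (F δ r')) := by
    have : (Real.sqrt (F δ r) + Real.sqrt (F δ r')) * (Real.sqrt (F δ r) - Real.sqrt (F δ r')) =
        Real.sqrt (F δ r) ^ 2 - Real.sqrt (F δ r') ^ 2 := by ring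
    rw [this, Real.sq_sqrt (h.nonneg δ r hδ hδ1 (h2.trans hr)), Real.sq_sqrt (h.nonneg δ r' hδ hδ1 h2)]
  rw [e3, abs_mul, abs_of_nonneg (add_nonneg (Real.sqrt_nonneg _) (Real.sqrt_nonneg _))]
  have hs : 0 ≤ K * Real.sqrt (r / r' - 1) := mul_nonneg hK (Real.sqrt_nonneg _)
  calc (Real.sqrt (F δ r) + Real.sqrt (F δ r')) * |Real.sqrt (F δ r) - Real.sqrt (F δ r')|
      ≤ (Real.sqrt K + Real.sqrt K) * (K * Real.sqrt (r / r' - 1)) :=
        mul_le_mul (add_le_add s1 s2) o (abs_nonneg _) (add_nonneg (Real.sqrt_nonneg _) (Real.sqrt_nonneg _))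
    _ = 2 * Real.sqrt K * K * Real.sqrt (r / r' - 1) := by ring

theorem contF (h : Slow F K) (hK : 0 ≤ K) {δ : ℝ} (hδ : 0 < δ) (hδ1 : δ ≤ 1) :
    ContinuousOn (F δ) (Ici 2) := by
  intro x hx
  have hx2 : (2 : ℝ) ≤ x := hx
  have hc : ContinuousAt (fun y : ℝ => 2 * Real.sqrt K * K * Real.sqrt (max x y / min x y - 1)) x := by
    have hm : min x x ≠ 0 := by
      rw [min_self]
      linarith
    have h1 : ContinuousAt (fun y : ℝ => max x y / min x y - 1) x :=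
      ((continuousAt_const.max continuousAt_id).div (continuousAt_const.min continuousAt_id) hm).sub
        continuousAt_const
    exact continuousAt_const.mul h1.sqrt
  have h0 : Tendsto (fun y : ℝ => 2 * Real.sqrt K * K * Real.sqrt (max x y / min x y - 1)) (𝓝[Ici 2] x) (𝓝 0) := by
    have h1 := hc.tendsto
    have h2 : 2 * Real.sqrt K * K * Real.sqrt (max x x / min x x - 1) = 0 := by
      rw [max_self, min_self, div_self (by linarith)]
      simp
    rw [h2] at h1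
    exact h1.mono_left nhdsWithin_le_nhds
  have hb : ∀ᶠ y in 𝓝[Ici 2] x, ‖F δ y - F δ x‖ ≤ 2 * Real.sqrt K * K * Real.sqrt (max x y / min x y - 1) := by
    filter_upwards [self_mem_nhdsWithin] with y hy
    have hy2 : (2 : ℝ) ≤ y := hy
    rw [Real.norm_eq_abs]
    rcases le_total x y with hxy | hxy
    · rw [max_eq_right hxy, min_eq_left hxy]
      exact diff_le h hK hδ hδ1 hx2 hxy
    · rw [max_eq_left hxy, min_eq_right hxy, abs_sub_comm]
      exact diff_le h hK hδ hδ1 hy2 hxy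
  have := squeeze_zero' (Eventually.of_forall fun y => norm_nonneg _) hb h0
  exact tendsto_iff_norm_sub_tendsto_zero.2 this

theorem intF (h : Slow F K) (hK : 0 ≤ K) {δ : ℝ} (hδ : 0 < δ) (hδ1 : δ ≤ 1) {a b : ℝ} (ha : 2 ≤ a)
    (hb : 2 ≤ b) : IntervalIntegrable (F δ) volume a b := by
  apply ContinuousOn.intervalIntegrable
  refine (contF h hK hδ hδ1).mono fun x hx => ?_
  rw [mem_uIcc] at hx
  show (2 : ℝ) ≤ x
  rcases hx with hx | hx <;> linarith [hx.1]

theorem intFm (h : Slow F K) (hK : 0 ≤ K) {δ : ℝ} (hδ : 0 < δ) (hδ1 : δ ≤ 1) {T a b : ℝ} (hT : 0 < T)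
    (ha : 2 ≤ T * a) (hb : 2 ≤ T * b) : IntervalIntegrable (fun v => F δ (T * v)) volume a b := by
  apply ContinuousOn.intervalIntegrable
  refine (contF h hK hδ hδ1).comp (by fun_prop) fun x hx => ?_
  rw [mem_uIcc] at hx
  show (2 : ℝ) ≤ T * x
  rcases hx with hx | hx
  · exact ha.trans (mul_le_mul_of_nonneg_left hx.1 hT.le)
  · exact hb.trans (mul_le_mul_of_nonneg_left hx.1 hT.le)

theorem absF (h : Slow F K) {δ r : ℝ} (hδ : 0 < δ) (hδ1 : δ ≤ 1) (hr : 2 ≤ r) : |F δ r| ≤ K := by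
  rw [abs_of_nonneg (h.nonneg δ r hδ hδ1 hr)]
  exact h.le δ r hδ hδ1 hr

end

/-- `v^(2δ)` is close to `1` -/
theorem pow_close {δ v : ℝ} (hδ : 0 < δ) (hδ4 : 4 * δ ≤ 1) (h1 : 1 / 2 ≤ v) (h2 : v ≤ 2) :
    |v ^ (2 * δ) - 1| ≤ 4 * δ := by
  have hv : 0 < v := by linarith
  have l1 : |Real.log v| ≤ 1 := by
    rw [abs_le]
    constructor
    · have := Real.log_le_log (by norm_num : (0 : ℝ) < 1 / 2) h1
      have e : Real.log (1 / 2) = - Real.log 2 := by rw [one_div, Real.log_inv]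
      have := Real.log_two_lt_d9
      linarith
    · have := Real.log_le_log hv h2
      have := Real.log_two_lt_d9
      linarith
  rw [Real.rpow_def_of_pos hv]
  have h3 : |Real.log v * (2 * δ)| ≤ 2 * δ := by
    rw [abs_mul, abs_of_pos (by positivity : 0 < 2 * δ)]
    nlinarith
  have h4 : |Real.log v * (2 * δ)| ≤ 1 := by linarith
  have h5 := Real.abs_exp_sub_one_le h4
  linarith

/-- the dyadic mean -/
noncomputable def PP (F : ℝ → ℝ → ℝ) (δ T : ℝ) : ℝ := ∫ v in (1 : ℝ)..2, F δ (T * v)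

/-- the long mean -/
noncomputable def HH (F : ℝ → ℝ → ℝ) (δ T : ℝ) : ℝ := (∫ r in (2 : ℝ)..T, F δ r) / T

section
variable {F : ℝ → ℝ → ℝ} {K γ : ℝ}

theorem HH_mul {δ T : ℝ} (hT : 0 < T) : T * HH F δ T = ∫ r in (2 : ℝ)..T, F δ r := by
  rw [HH, mul_div_cancel₀ _ hT.ne']

theorem PP_mul {δ T : ℝ} (hT : 0 < T) : T * PP F δ T = ∫ r in T..(2 * T), F δ r := by
  rw [PP, intervalIntegral.integral_comp_mul_left _ hT.ne', smul_eq_mul, mul_one, mul_comm T 2, ← mul_assoc,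
    mul_inv_cancel₀ hT.ne', one_mul]

theorem HH_step (h : Slow F K) (hK : 0 ≤ K) {δ x : ℝ} (hδ : 0 < δ) (hδ1 : δ ≤ 1) (hx : 2 ≤ x) :
    HH F δ (2 * x) = (HH F δ x + PP F δ x) / 2 := by
  have hx0 : 0 < x := by linarith
  have h1 : 2 * x * HH F δ (2 * x) = x * HH F δ x + x * PP F δ x := by
    rw [HH_mul (by linarith), HH_mul hx0, PP_mul hx0]
    exact (intervalIntegral.integral_add_adjacent_intervals (intF h hK hδ hδ1 le_rfl hx)
      (intF h hK hδ hδ1 hx (by linarith))).symm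
  have h2 : x * (2 * HH F δ (2 * x) - (HH F δ x + PP F δ x)) = 0 := by linarith
  rcases mul_eq_zero.1 h2 with h3 | h3
  · exact absurd h3 hx0.ne'
  · linarith

theorem HH_le (h : Slow F K) (hK : 0 ≤ K) {δ x : ℝ} (hδ : 0 < δ) (hδ1 : δ ≤ 1) (hx : 2 ≤ x) :
    |HH F δ x| ≤ K := by
  have hx0 : 0 < x := by linarith
  rw [HH, abs_div, abs_of_pos hx0, div_le_iff₀ hx0]
  have h1 : ‖∫ r in (2 : ℝ)..x, F δ r‖ ≤ K * |x - 2| :=
    intervalIntegral.norm_integral_le_of_norm_le_const fun r hr => by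
      rw [uIoc_of_le hx] at hr
      exact absF h hδ hδ1 hr.1.le
  rw [Real.norm_eq_abs, abs_of_nonneg (by linarith : 0 ≤ x - 2)] at h1
  nlinarith

theorem HH_pow (h : Slow F K) (hK : 0 ≤ K) {δ x ε : ℝ} (hδ : 0 < δ) (hδ1 : δ ≤ 1) (hx : 2 ≤ x) (hε : 0 ≤ ε) (n : ℕ)
    (hP : ∀ j < n, |PP F δ (2 ^ j * x) - γ| ≤ ε) : |HH F δ (2 ^ n * x) - γ| ≤ (K + |γ|) / 2 ^ n + ε := by
  induction n with
  | zero =>
    rw [pow_zero, one_mul, div_one]
    have h1 := HH_le h hK hδ hδ1 hx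
    have h2 := abs_sub (HH F δ x) γ
    linarith
  | succ n ih =>
    have h1 := ih fun j hj => hP j (Nat.lt_succ_of_lt hj)
    have h2 := hP n (Nat.lt_succ_self n)
    have h3 : (2 : ℝ) ≤ 2 ^ n * x := by
      have : (1 : ℝ) ≤ 2 ^ n := one_le_pow₀ (by norm_num)
      nlinarith
    have e : (2 : ℝ) ^ (n + 1) * x = 2 * (2 ^ n * x) := by ring
    rw [e, HH_step h hK hδ hδ1 h3]
    have e2 : (HH F δ (2 ^ n * x) + PP F δ (2 ^ n * x)) / 2 - γ =
        (HH F δ (2 ^ n * x) - γ) / 2 + (PP F δ (2 ^ n * x) - γ) / 2 := by ring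
    have e3 : (K + |γ|) / 2 ^ (n + 1) = ((K + |γ|) / 2 ^ n) / 2 := by
      rw [pow_succ]
      field_simp
    rw [e2, e3]
    refine (abs_add_le _ _).trans ?_
    rw [abs_div, abs_div, abs_of_pos (by norm_num : (0 : ℝ) < 2)]
    linarith

theorem HH_conv (h : Slow F K) (hK : 0 ≤ K) (hP : Conv (PP F) γ) : Conv (HH F) γ := by
  intro a ha ε hε
  obtain ⟨J, hJ⟩ : ∃ J : ℕ, (K + |γ|) / 2 ^ J ≤ ε / 2 := by
    have ht : Tendsto (fun n : ℕ => (K + |γ|) / (2 : ℝ) ^ n) atTop (𝓝 0) :=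
      tendsto_const_nhds.div_atTop (tendsto_pow_atTop_atTop_of_one_lt (by norm_num))
    obtain ⟨J, hJ⟩ := (ht.eventually (gt_mem_nhds (by positivity : 0 < ε / 2))).exists
    exact ⟨J, hJ.le⟩
  have h2J : (1 : ℝ) ≤ 2 ^ J := one_le_pow₀ (by norm_num)
  obtain ⟨η₁, T₁, hη₁, h1⟩ := Conv_scale hP h2J ha (half_pos hε)
  obtain ⟨η₂, T₂, hη₂, h2⟩ := Conv_small ha (2 ^ J * 2)
  refine ⟨min η₁ η₂, max T₁ T₂, lt_min hη₁ hη₂, fun δ T hT hd => ?_⟩
  obtain ⟨a1, -, a3, -, a5⟩ := h2 δ T ((le_max_right _ _).trans hT) (hd.trans_le (min_le_right _ _))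
  have h2J0 : (0 : ℝ) < 2 ^ J := by positivity
  have hx : 2 ≤ T / 2 ^ J := by
    rw [le_div_iff₀ h2J0]
    linarith
  have h3 := HH_pow (γ := γ) h hK a3 a5 hx (half_pos hε).le J fun j hj => by
    have e : (2 : ℝ) ^ j * (T / 2 ^ J) = (2 ^ j / 2 ^ J) * T := by ring
    rw [e]
    refine h1 δ T _ ((le_max_left _ _).trans hT) (hd.trans_le (min_le_left _ _)) ?_ ?_
    · rw [div_eq_mul_inv]
      have : (1 : ℝ) ≤ 2 ^ j := one_le_pow₀ (by norm_num)
      have h4 : (0 : ℝ) < (2 ^ J)⁻¹ := by positivity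
      nlinarith
    · rw [div_le_iff₀ h2J0]
      have : (2 : ℝ) ^ j ≤ 2 ^ J := pow_le_pow_right₀ (by norm_num) hj.le
      nlinarith
  have e : (2 : ℝ) ^ J * (T / 2 ^ J) = T := by field_simp
  rw [e] at h3
  linarith

theorem back (h : Slow F K) (hK : 0 ≤ K) (hP : Conv (PP F) γ) : Conv F γ := by
  have hH := HH_conv h hK hP
  intro a ha ε hε
  obtain ⟨u, hu0, hu1, hu⟩ : ∃ u : ℝ, 0 < u ∧ u ≤ 1 ∧ 2 * Real.sqrt K * K * u ≤ ε / 2 := by
    have hk : 0 ≤ 2 * Real.sqrt K * K := by positivity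
    refine ⟨min 1 (ε / 2 / (2 * Real.sqrt K * K + 1)), lt_min one_pos (by positivity), min_le_left _ _, ?_⟩
    calc 2 * Real.sqrt K * K * min 1 (ε / 2 / (2 * Real.sqrt K * K + 1))
        ≤ (2 * Real.sqrt K * K + 1) * (ε / 2 / (2 * Real.sqrt K * K + 1)) :=
          mul_le_mul (by linarith) (min_le_right _ _) (le_of_lt (lt_min one_pos (by positivity))) (by linarith)
      _ = ε / 2 := by field_simp
  have hl0 : 0 < u ^ 2 := by positivity
  have hl1 : u ^ 2 ≤ 1 := by nlinarith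
  obtain ⟨η₁, T₁, hη₁, h1⟩ := Conv_scale hH (M := 2) (by norm_num) ha (ε := ε * u ^ 2 / 6) (by positivity)
  obtain ⟨η₂, T₂, hη₂, h2⟩ := Conv_small ha 2
  refine ⟨min η₁ η₂, max T₁ T₂, lt_min hη₁ hη₂, fun δ T hT hd => ?_⟩
  obtain ⟨a1, -, a3, -, a5⟩ := h2 δ T ((le_max_right _ _).trans hT) (hd.trans_le (min_le_right _ _))
  have hT0 : 0 < T := by linarith
  have b1 := h1 δ T 1 ((le_max_left _ _).trans hT) (hd.trans_le (min_le_left _ _)) (by norm_num) (by norm_num)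
  have b2 := h1 δ T (1 + u ^ 2) ((le_max_left _ _).trans hT) (hd.trans_le (min_le_left _ _))
    (by norm_num; nlinarith) (by linarith)
  rw [one_mul] at b1
  set L : ℝ := (1 + u ^ 2) * T with hL
  have hTL : T ≤ L := by nlinarith
  have hL0 : 0 < L := by linarith
  -- the short mean
  have c1 : ∫ r in T..L, F δ r = L * HH F δ L - T * HH F δ T := by
    rw [HH_mul hL0, HH_mul hT0]
    have := intervalIntegral.integral_add_adjacent_intervals (intF h hK a3 a5 le_rfl a1)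
      (intF h hK a3 a5 a1 (a1.trans hTL))
    linarith
  have c2 : ‖∫ r in T..L, (F δ r - F δ T)‖ ≤ ε / 2 * |L - T| :=
    intervalIntegral.norm_integral_le_of_norm_le_const fun r hr => by
      rw [uIoc_of_le hTL] at hr
      refine (diff_le h hK a3 a5 a1 hr.1.le).trans (le_trans ?_ hu)
      refine mul_le_mul_of_nonneg_left ?_ (by positivity)
      rw [Real.sqrt_le_left hu0.le, sub_le_iff_le_add, div_le_iff₀ hT0]
      linarith [hr.2]
  rw [intervalIntegral.integral_sub (intF h hK a3 a5 a1 (a1.trans hTL)) intervalIntegrable_const, c1,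
    intervalIntegral.integral_const, smul_eq_mul, Real.norm_eq_abs,
    abs_of_nonneg (by linarith : 0 ≤ L - T)] at c2
  have e1 : L - T = u ^ 2 * T := by rw [hL]; ring
  rw [e1, hL] at c2
  have e2 : (1 + u ^ 2) * T * HH F δ ((1 + u ^ 2) * T) - T * HH F δ T - u ^ 2 * T * F δ T =
      T * ((1 + u ^ 2) * (HH F δ ((1 + u ^ 2) * T) - γ) - (HH F δ T - γ) - u ^ 2 * (F δ T - γ)) := by ring
  rw [e2, abs_mul, abs_of_pos hT0] at c2
  have c3 : |(1 + u ^ 2) * (HH F δ ((1 + u ^ 2) * T) - γ) - (HH F δ T - γ) - u ^ 2 * (F δ T - γ)| ≤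
      ε / 2 * u ^ 2 := by
    refine le_of_mul_le_mul_left ?_ hT0
    linarith
  rw [hL] at b2
  rw [abs_le] at b1 b2 c3 ⊢
  have d1 : (1 + u ^ 2) * (HH F δ ((1 + u ^ 2) * T) - γ) ≤ (1 + u ^ 2) * (ε * u ^ 2 / 6) :=
    mul_le_mul_of_nonneg_left b2.2 (by positivity)
  have d2 : (1 + u ^ 2) * (-(ε * u ^ 2 / 6)) ≤ (1 + u ^ 2) * (HH F δ ((1 + u ^ 2) * T) - γ) :=
    mul_le_mul_of_nonneg_left b2.1 (by positivity)
  have d3 : (1 + u ^ 2) * (ε * u ^ 2 / 6) ≤ 2 * (ε * u ^ 2 / 6) :=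
    mul_le_mul_of_nonneg_right (by linarith) (by positivity)
  constructor
  · refine le_of_mul_le_mul_left ?_ hl0
    linarith [c3.1, c3.2, b1.1, b1.2]
  · refine le_of_mul_le_mul_left ?_ hl0
    linarith [c3.1, c3.2, b1.1, b1.2]

/-- the weight `v^(2δ)` and the shift by `1/(2T)` do not matter -/
theorem mean_close (h : Slow F K) (hK : 0 ≤ K) {δ T : ℝ} (hδ : 0 < δ) (hδ4 : 4 * δ ≤ 1) (hT : 3 ≤ T) :
    |(∫ v in (1 - 1 / (2 * T))..(2 - 1 / (2 * T)), v ^ (2 * δ) * F δ (T * v)) - PP F δ T| ≤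
      4 * δ * K + K / T := by
  have hT0 : 0 < T := by linarith
  have hδ1 : δ ≤ 1 := by linarith
  set s : ℝ := 1 / (2 * T) with hs
  have hs0 : 0 < s := by positivity
  have hs1 : s ≤ 1 / 6 := by
    rw [hs]
    apply one_div_le_one_div_of_le <;> linarith
  have hTs : T * s = 1 / 2 := by
    rw [hs]
    field_simp
  have hA : 2 ≤ T * (1 - s) := by nlinarith
  have hB : 2 ≤ T * (2 - s) := by nlinarith
  have hA' : 2 ≤ T * 1 := by nlinarith
  have hB' : 2 ≤ T * 2 := by nlinarith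
  have i0 := intFm h hK hδ hδ1 hT0 hA hB
  have i1 := intFm h hK hδ hδ1 hT0 hA hA'
  have i2 := intFm h hK hδ hδ1 hT0 hA' hB
  have i3 := intFm h hK hδ hδ1 hT0 hB hB'
  have i4 : IntervalIntegrable (fun v => v ^ (2 * δ) * F δ (T * v)) volume (1 - s) (2 - s) := by
    apply ContinuousOn.intervalIntegrable
    rw [uIcc_of_le (by linarith)]
    refine ContinuousOn.mul ?_ ((contF h hK hδ hδ1).comp (by fun_prop) fun x hx => ?_)
    · exact fun x hx => (Real.continuousAt_rpow_const x _ (Or.inr (by positivity))).continuousWithinAt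
    · show (2 : ℝ) ≤ T * x
      nlinarith [hx.1]
  have e1 : (∫ v in (1 - s)..(2 - s), v ^ (2 * δ) * F δ (T * v)) - PP F δ T =
      (∫ v in (1 - s)..(2 - s), (v ^ (2 * δ) * F δ (T * v) - F δ (T * v))) +
        (∫ v in (1 - s)..1, F δ (T * v)) - ∫ v in (2 - s)..2, F δ (T * v) := by
    rw [intervalIntegral.integral_sub i4 i0, PP]
    have q1 := intervalIntegral.integral_add_adjacent_intervals i1 i2
    have q2 := intervalIntegral.integral_add_adjacent_intervals i2 i3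
    linarith
  have f1 : ‖∫ v in (1 - s)..(2 - s), (v ^ (2 * δ) * F δ (T * v) - F δ (T * v))‖ ≤ 4 * δ * K * |2 - s - (1 - s)| :=
    intervalIntegral.norm_integral_le_of_norm_le_const fun v hv => by
      rw [uIoc_of_le (by linarith)] at hv
      have e : v ^ (2 * δ) * F δ (T * v) - F δ (T * v) = (v ^ (2 * δ) - 1) * F δ (T * v) := by ring
      rw [e, Real.norm_eq_abs, abs_mul]
      exact mul_le_mul (pow_close hδ hδ4 (by linarith [hv.1]) (by linarith [hv.2]))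
        (absF h hδ hδ1 (by nlinarith [hv.1])) (abs_nonneg _) (by positivity)
  have f2 : ‖∫ v in (1 - s)..1, F δ (T * v)‖ ≤ K * |1 - (1 - s)| :=
    intervalIntegral.norm_integral_le_of_norm_le_const fun v hv => by
      rw [uIoc_of_le (by linarith)] at hv
      exact absF h hδ hδ1 (by nlinarith [hv.1])
  have f3 : ‖∫ v in (2 - s)..2, F δ (T * v)‖ ≤ K * |2 - (2 - s)| :=
    intervalIntegral.norm_integral_le_of_norm_le_const fun v hv => by
      rw [uIoc_of_le (by linarith)] at hv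
      exact absF h hδ hδ1 (by nlinarith [hv.1])
  have g1 : 2 - s - (1 - s) = 1 := by ring
  have g2 : 1 - (1 - s) = s := by ring
  have g3 : 2 - (2 - s) = s := by ring
  rw [g1, abs_one, mul_one, Real.norm_eq_abs, abs_le] at f1
  rw [g2, abs_of_pos hs0, Real.norm_eq_abs, abs_le] at f2
  rw [g3, abs_of_pos hs0, Real.norm_eq_abs, abs_le] at f3
  have g4 : K / T = K * s + K * s := by
    rw [hs]
    field_simp
    ring
  rw [e1, g4, abs_le]
  constructor <;> linarith [f1.1, f1.2, f2.1, f2.2, f3.1, f3.2]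

theorem mean_close' (h : Slow F K) (hK : 0 ≤ K) : ∀ a : ℝ, 0 < a → ∀ ε : ℝ, 0 < ε → ∃ η T₀ : ℝ, 0 < η ∧
    ∀ δ T : ℝ, T₀ ≤ T → |δ * Real.log T - a| < η →
      |(∫ v in (1 - 1 / (2 * T))..(2 - 1 / (2 * T)), v ^ (2 * δ) * F δ (T * v)) - PP F δ T| ≤ ε := by
  intro a ha ε hε
  obtain ⟨η, T₀, hη, h1⟩ := Conv_small ha (max 4 (8 * K / ε))
  refine ⟨η, T₀, hη, fun δ T hT hd => ?_⟩
  obtain ⟨a1, a2, a3, a4, -⟩ := h1 δ T hT hd
  have hT0 : 0 < T := by linarith
  have b1 : δ * 4 ≤ 1 := (mul_le_mul_of_nonneg_left (le_max_left _ _) a3.le).trans a4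
  have b2 : δ * (8 * K / ε) ≤ 1 := (mul_le_mul_of_nonneg_left (le_max_right _ _) a3.le).trans a4
  have b3 : 8 * K / ε ≤ T := (le_max_right _ _).trans a1
  refine (mean_close h hK a3 (by linarith) a2).trans ?_
  have c1 : 8 * (δ * K) ≤ ε := by
    have : δ * (8 * K / ε) = 8 * (δ * K) / ε := by ring
    rw [this, div_le_one hε] at b2
    exact b2
  have c2 : K / T ≤ ε / 8 := by
    rw [div_le_iff₀ hT0]
    rw [div_le_iff₀ hε] at b3
    nlinarith
  linarith

theorem forth (h : Slow F K) (hK : 0 ≤ K) (hF : Conv F γ) : Conv (PP F) γ := by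
  intro a ha ε hε
  obtain ⟨η₁, T₁, hη₁, h1⟩ := Conv_scale hF (M := 2) (by norm_num) ha hε
  obtain ⟨η₂, T₂, hη₂, h2⟩ := Conv_small ha 2
  refine ⟨min η₁ η₂, max T₁ T₂, lt_min hη₁ hη₂, fun δ T hT hd => ?_⟩
  obtain ⟨a1, a2, a3, -, a5⟩ := h2 δ T ((le_max_right _ _).trans hT) (hd.trans_le (min_le_right _ _))
  have hT0 : 0 < T := by linarith
  have i := intFm h hK a3 a5 hT0 (a := 1) (b := 2) (by linarith) (by linarith)
  have e : PP F δ T - γ = ∫ v in (1 : ℝ)..2, (F δ (T * v) - γ) := by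
    rw [intervalIntegral.integral_sub i intervalIntegrable_const, intervalIntegral.integral_const, PP]
    norm_num
  rw [e]
  have f : ‖∫ v in (1 : ℝ)..2, (F δ (T * v) - γ)‖ ≤ ε * |2 - 1| :=
    intervalIntegral.norm_integral_le_of_norm_le_const fun v hv => by
      rw [uIoc_of_le (by norm_num)] at hv
      rw [mul_comm T v]
      exact h1 δ T v ((le_max_left _ _).trans hT) (hd.trans_le (min_le_left _ _)) (by norm_num; linarith [hv.1])
        hv.2
  rw [Real.norm_eq_abs] at f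
  norm_num at f
  exact f

end

/-- **GI-AV** -/
theorem av : S_AV := by
  intro F K γ hK h
  constructor
  · intro hc
    refine back h hK (Conv_congr hc fun a ha ε hε => ?_)
    obtain ⟨η, T₀, hη, h1⟩ := mean_close' h hK a ha ε hε
    refine ⟨η, T₀, hη, fun δ T hT hd => ?_⟩
    rw [abs_sub_comm]
    exact h1 δ T hT hd
  · intro hc
    exact Conv_congr (forth h hK hc) (mean_close' h hK)

end Pool.Agent.J6H64.GI
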